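import Pool.Agent.N343.TC.Stm

/-! Project TC (helper343, MP_8dfb46_an), SEQ: asymptotics of explicit sequences (helper767). -/

set_option autoImplicit false

namespace Pool.Agent.N767.TC

open Pool.Agent.N343.TC

lemma rpow_inv (x : ℝ) (hx : 0 < x) (k : ℕ) (hk : 6 ≤ k) : (x ^ ((1 : ℝ) / k)) ^ k = x := by
  have hk0 : (k : ℝ) ≠ 0 := by
    have : k ≠ 0 := by omega
    exact_mod_cast this
  rw [← Real.rpow_natCast, ← Real.rpow_mul hx.le, one_div, inv_mul_cancel₀ hk0, Real.rpow_one]

theorem main : S_SEQ := by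
  refine ⟨10, by norm_num, ?_⟩
  intro k hk
  have hK : (6 : ℝ) ≤ k := by exact_mod_cast hk
  set K : ℝ := (k : ℝ) with hKdef
  have hK0 : 0 < K := by linarith
  have hK1 : 0 < K + 1 := by linarith
  have hK2 : 0 < 2 * K + 1 := by linarith
  have hi : 0 < 1 / K := by positivity
  have hi6 : 1 / K ≤ 1 / 6 := one_div_le_one_div_of_le (by norm_num) hK
  have hc : cc k = 3 / 4 * (1 / K) := by
    unfold cc
    rw [← hKdef]
    field_simp
  have hcK : K * cc k = 3 / 4 := by
    rw [hc]
    field_simp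
  have hc0 : 0 < cc k := by rw [hc]; positivity
  have hc8 : cc k ≤ 1 / 8 := by rw [hc]; linarith
  have ha : aa k = 2 * cc k / (K + 1) := rfl
  have ha0 : 0 < aa k := by rw [ha]; positivity
  have ha1 : aa k ≤ 2 * cc k * (1 / K) := by
    rw [ha, div_eq_mul_one_div]
    apply mul_le_mul_of_nonneg_left _ (by positivity)
    exact one_div_le_one_div_of_le hK0 (by linarith)
  have hb : bb k = (cc k) ^ 2 / (2 * K + 1) := rfl
  have hb0 : 0 < bb k := by rw [hb]; positivity
  have hb1 : bb k ≤ (cc k) ^ 2 := by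
    rw [hb]
    exact div_le_self (by positivity) (by linarith)
  have hb2 : bb k ≤ (cc k) ^ 2 * (1 / K) := by
    rw [hb, div_eq_mul_one_div]
    apply mul_le_mul_of_nonneg_left _ (by positivity)
    exact one_div_le_one_div_of_le hK0 (by linarith)
  have h10 : 10 / K = 10 * (1 / K) := by ring
  rw [h10]
  set i : ℝ := 1 / K with hidef
  have hKi : K * i = 1 := by rw [hidef]; field_simp
  -- `q`
  have hq : qq k - 1 / 2 = (2 * aa k * cc k + bb k * (cc k) ^ 2 - (cc k) ^ 2) /
      (2 * (1 + (cc k) ^ 2)) := by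
    unfold qq
    have : (0 : ℝ) < 1 + (cc k) ^ 2 := by positivity
    field_simp
    ring
  have hcc : (cc k) ^ 2 ≤ i / 8 := by
    rw [hc]
    nlinarith
  have hac : aa k * cc k ≤ i / 8 := by
    have h1 : aa k * cc k ≤ (2 * cc k * i) * cc k := by gcongr
    nlinarith
  have hbc : bb k * (cc k) ^ 2 ≤ i / 8 := by
    have h1 : bb k * (cc k) ^ 2 ≤ (cc k) ^ 2 * (1 / 8) ^ 2 := by gcongr
    nlinarith
  have hac0 : 0 < aa k * cc k := by positivity
  have hbc0 : 0 < bb k * (cc k) ^ 2 := by positivity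
  have hcc0 : 0 < (cc k) ^ 2 := by positivity
  have hq1 : |qq k - 1 / 2| ≤ i := by
    rw [hq, abs_div, abs_of_pos (by positivity : 0 < 2 * (1 + (cc k) ^ 2)),
      div_le_iff₀ (by positivity)]
    have h1 : |2 * aa k * cc k + bb k * (cc k) ^ 2 - (cc k) ^ 2| ≤ i := by
      rw [abs_le]
      constructor <;> linarith
    nlinarith
  obtain ⟨hq2, hq3⟩ := abs_le.1 hq1
  refine ⟨?_, ?_, ?_, ?_, ?_, ?_, ?_, ?_, ?_, ?_, ?_, ?_⟩
  · have h1 : K ^ 2 * aa k - 3 / 2 = -(3 / 2 * (1 / (K + 1))) := by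
      rw [ha]
      have h2 : K ^ 2 * (2 * cc k / (K + 1)) = 2 * (K * cc k) * K / (K + 1) := by ring
      rw [h2, hcK]
      field_simp
      ring
    rw [h1, abs_neg, abs_of_pos (by positivity)]
    have h2 : 1 / (K + 1) ≤ i := one_div_le_one_div_of_le hK0 (by linarith)
    linarith
  · have h1 : K ^ 2 * bb k = 9 / 16 * (1 / (2 * K + 1)) := by
      rw [hb]
      have h2 : K ^ 2 * ((cc k) ^ 2 / (2 * K + 1)) = (K * cc k) ^ 2 / (2 * K + 1) := by ring
      rw [h2, hcK]
      ring
    rw [h1, abs_of_pos (by positivity)]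
    have h2 : 1 / (2 * K + 1) ≤ i := one_div_le_one_div_of_le hK0 (by linarith)
    linarith
  · have h1 : K * ((cc k) ^ 2 / 4) = (K * cc k) * cc k / 4 := by ring
    rw [h1, hcK, abs_of_pos (by positivity), hc]
    linarith
  · have h1 : K * (cc k + aa k * (cc k) ^ 2 / 2 - qq k * cc k) - 3 / 8 =
        (K * cc k) * (1 + aa k * cc k / 2 - qq k) - 3 / 8 := by ring
    rw [h1, hcK, abs_le]
    constructor <;> linarith
  · have h1 : K * (aa k / 2 + bb k * cc k - qq k * cc k) + 3 / 8 =
        (K * aa k) / 2 + (K * cc k) * (bb k - qq k) + 3 / 8 := by ring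
    have h2 : K * aa k ≤ 2 * cc k := by
      calc K * aa k ≤ K * (2 * cc k * i) := by gcongr
        _ = 2 * cc k * (K * i) := by ring
        _ = 2 * cc k := by rw [hKi, mul_one]
    have h3 : 0 < K * aa k := by positivity
    rw [h1, hcK, abs_le]
    constructor <;> linarith
  · have h1 : K * (bb k / 4) ≤ (cc k) ^ 2 / 4 := by
      calc K * (bb k / 4) ≤ K * ((cc k) ^ 2 * i / 4) := by gcongr
        _ = (cc k) ^ 2 * (K * i) / 4 := by ring
        _ = _ := by rw [hKi, mul_one]
    rw [abs_of_pos (by positivity)]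
    linarith
  · have h0 : 0 < RR k := Real.rpow_pos_of_pos (by norm_num) _
    have h1 : RR k < 1 := Real.rpow_lt_one (by norm_num) (by norm_num) (by positivity)
    have h2 : Real.log (RR k) = i * Real.log (4 / 5) := by
      unfold RR
      rw [Real.log_rpow (by norm_num)]
    have h3 : -(1 / 4) ≤ Real.log (4 / 5 : ℝ) := by
      have h4 : Real.log (4 / 5 : ℝ) = -Real.log (5 / 4) := by
        rw [← Real.log_inv]
        norm_num
      rw [h4]
      have := Real.log_le_sub_one_of_pos (show (0 : ℝ) < 5 / 4 by norm_num)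
      linarith
    have h5 : 1 - i / 4 ≤ RR k := by
      have h6 := Real.add_one_le_exp (Real.log (RR k))
      rw [Real.exp_log h0, h2] at h6
      have h7 : i * (-(1 / 4)) ≤ i * Real.log (4 / 5) := mul_le_mul_of_nonneg_left h3 hi.le
      linarith
    have h7 : (1 - RR k) * (1 + RR k) ≤ (i / 4) * 2 :=
      mul_le_mul (by linarith) (by linarith) (by linarith) (by linarith)
    have h8 : RR k ^ 2 - 1 = -((1 - RR k) * (1 + RR k)) := by ring
    have h9 : 0 ≤ (1 - RR k) * (1 + RR k) := mul_nonneg (by linarith) (by linarith)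
    rw [h8, abs_neg, abs_of_nonneg h9]
    linarith
  · exact Real.rpow_pos_of_pos (by norm_num) _
  · exact Real.rpow_lt_one (by norm_num) (by norm_num) (by positivity)
  · exact rpow_inv _ (by norm_num) k hk
  · exact Real.one_lt_rpow (by norm_num) (by positivity)
  · exact rpow_inv _ (by norm_num) k hk

end Pool.Agent.N767.TC
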